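import Pool.Agent.V11244.SCFT

/-! Every forcing notion preserves the statement that II wins the strong countable fan
tightness game on the ground model space `C_p(X)`. -/

namespace Pool.Agent.Results.MP_abf503_lc.PreservedCp

open Pool.Agent.V11244.SCFT

universe u v

/-- The space `C_p(X)`: the continuous functions from `X` to `ℝ`, with the topology of pointwise
convergence (the subspace topology from the product topology on all functions). -/
abbrev Cp (X : Type v) [TopologicalSpace X] : Type v := {f : X → ℝ // Continuous f}

/-- **Theorem.** Let `X` be a topological space such that II has a winning strategy in the strong
countable fan tightness game at every point of `C_p(X)`. Let `P` be any forcing notion (in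
particular, one which is strongly proper for stationarily many models). Then every condition of
`P` forces that II has a winning strategy in this game at every point of the ground model set
`C_p(X)`, for the topology with the ground model topology as a base. -/
theorem result (P : Type u) [Preorder P] (X : Type v) [TopologicalSpace X]
    (h : IIWins (Cp X)) : ∀ p : P, p ∈ fIIWins P (Cp X) :=
  fun p => preserved h p

end Pool.Agent.Results.MP_abf503_lc.PreservedCp
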